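import Mathlib

set_option autoImplicit false

open Topology

namespace Pool.Agent.Results.MP_b9311c_al.CSANotProP

/-- `M` is a maximal abelian subgroup. -/
def IsMaxAbelian {G : Type} [Group G] (M : Subgroup G) : Prop :=
  (∀ a ∈ M, ∀ b ∈ M, a * b = b * a) ∧
    ∀ M' : Subgroup G, (∀ a ∈ M', ∀ b ∈ M', a * b = b * a) → M ≤ M' → M' = M

/-- `H` is malnormal: `H ∩ g H g⁻¹ = 1` for every `g` outside `H`. -/
def IsMalnormal {G : Type} [Group G] (H : Subgroup G) : Prop :=
  ∀ g : G, g ∉ H → H ⊓ H.map (MulAut.conj g).toMonoidHom = ⊥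

/-- CSA-group: every maximal abelian subgroup is malnormal. -/
def IsCSA (G : Type) [Group G] : Prop :=
  ∀ M : Subgroup G, IsMaxAbelian M → IsMalnormal M

/-- Every open normal subgroup has index a power of `p`. For a profinite group this says that the
group is pro-`p`. -/
def IsProP (p : ℕ) (G : Type) [Group G] [TopologicalSpace G] : Prop :=
  ∀ N : Subgroup G, N.Normal → IsOpen (N : Set G) → ∃ k : ℕ, N.index = p ^ k

lemma csa_of {G : Type} [Group G]
    (h1 : ∀ x y z : G, y ≠ 1 → x * y = y * x → y * z = z * y → x * z = z * x)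
    (h2 : ∀ g y : G, y ≠ 1 → (g * y * g⁻¹) * y = y * (g * y * g⁻¹) → g * y = y * g) :
    IsCSA G := by
  intro M hM g hg
  rw [eq_bot_iff]
  intro x hx
  obtain ⟨hxM, y, hyM, hxy⟩ := hx
  have hxy' : g * y * g⁻¹ = x := hxy
  rw [Subgroup.mem_bot]
  by_contra hx1
  have hy1 : y ≠ 1 := by
    rintro rfl
    apply hx1
    rw [← hxy']; simp
  have hgy : g * y = y * g := by
    apply h2 g y hy1
    rw [hxy']
    exact hM.1 x hxM y hyM
  apply hg
  have hle : M ≤ Subgroup.centralizer {y} := by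
    intro m hm
    rw [Subgroup.mem_centralizer_singleton_iff]
    exact hM.1 m hm y hyM
  have hab : ∀ a ∈ Subgroup.centralizer {y}, ∀ b ∈ Subgroup.centralizer {y}, a * b = b * a := by
    intro a ha b hb
    rw [Subgroup.mem_centralizer_singleton_iff] at ha hb
    exact h1 a y b hy1 ha hb.symm
  rw [← hM.2 _ hab hle, Subgroup.mem_centralizer_singleton_iff]
  exact hgy

section alg

variable {R : Type} [CommRing R]

/-- multiplication of `a + b i + c j + d k` with `i² = -3`, `j² = 5`, `k = ij = -ji` -/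
def mul4 (x y : R × R × R × R) : R × R × R × R :=
  (x.1 * y.1 - 3 * (x.2.1 * y.2.1) + 5 * (x.2.2.1 * y.2.2.1) + 15 * (x.2.2.2 * y.2.2.2),
   x.1 * y.2.1 + x.2.1 * y.1 - 5 * (x.2.2.1 * y.2.2.2) + 5 * (x.2.2.2 * y.2.2.1),
   x.1 * y.2.2.1 + x.2.2.1 * y.1 - 3 * (x.2.1 * y.2.2.2) + 3 * (x.2.2.2 * y.2.1),
   x.1 * y.2.2.2 + x.2.2.2 * y.1 + x.2.1 * y.2.2.1 - x.2.2.1 * y.2.1)

def n4 (x : R × R × R × R) : R :=
  x.1 ^ 2 + 3 * x.2.1 ^ 2 - 5 * x.2.2.1 ^ 2 - 15 * x.2.2.2 ^ 2

def one4 : R × R × R × R := (1, 0, 0, 0)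

def conj4 (x : R × R × R × R) : R × R × R × R := (x.1, -x.2.1, -x.2.2.1, -x.2.2.2)

lemma n4_mul (x y : R × R × R × R) : n4 (mul4 x y) = n4 x * n4 y := by
  simp only [mul4, n4]; ring

lemma mul4_assoc (x y z : R × R × R × R) : mul4 (mul4 x y) z = mul4 x (mul4 y z) := by
  simp only [mul4]
  refine Prod.ext ?_ (Prod.ext ?_ (Prod.ext ?_ ?_)) <;> simp only <;> ring

lemma one_mul4 (x : R × R × R × R) : mul4 one4 x = x := by
  simp only [mul4, one4]
  refine Prod.ext ?_ (Prod.ext ?_ (Prod.ext ?_ ?_)) <;> simp only <;> ring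

lemma conj_mul4 (x : R × R × R × R) : mul4 (conj4 x) x = (n4 x, 0, 0, 0) := by
  simp only [mul4, conj4, n4]
  refine Prod.ext ?_ (Prod.ext ?_ (Prod.ext ?_ ?_)) <;> simp only <;> ring

lemma n4_conj (x : R × R × R × R) : n4 (conj4 x) = n4 x := by
  simp only [conj4, n4]; ring

lemma n4_one : n4 (one4 : R × R × R × R) = 1 := by
  simp only [one4, n4]; ring

def map4 {S : Type} [CommRing S] (f : R →+* S) (x : R × R × R × R) : S × S × S × S :=
  (f x.1, f x.2.1, f x.2.2.1, f x.2.2.2)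

lemma map4_mul {S : Type} [CommRing S] (f : R →+* S) (x y : R × R × R × R) :
    map4 f (mul4 x y) = mul4 (map4 f x) (map4 f y) := by
  simp only [map4, mul4, map_add, map_sub, map_mul, map_ofNat]

end alg

instance fact5 : Fact (Nat.Prime 5) := ⟨Nat.prime_five⟩

abbrev Z5 := ℤ_[5]

abbrev P := Z5 × Z5 × Z5 × Z5

def SS (u : ZMod 5 × ZMod 5) : Prop := u = (1, 0) ∨ u = (2, 3) ∨ u = (2, 2)

instance : DecidablePred SS := fun u => by unfold SS; infer_instance

lemma SS_mul : ∀ a b a' b' : ZMod 5, SS (a, b) → SS (a', b') →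
    SS (a * a' - 3 * (b * b'), a * b' + b * a') := by decide

lemma SS_conj : ∀ a b : ZMod 5, SS (a, b) → SS (a, -b) := by decide

/-- the defining condition -/
def Cond (x : P) : Prop :=
  n4 x = 1 ∧ SS (PadicInt.toZMod x.1, PadicInt.toZMod x.2.1)

lemma cond_mul {x y : P} (hx : Cond x) (hy : Cond y) : Cond (mul4 x y) := by
  refine ⟨by rw [n4_mul, hx.1, hy.1, one_mul], ?_⟩
  have h := SS_mul _ _ _ _ hx.2 hy.2
  have h5 : (5 : ZMod 5) = 0 := by decide
  have h15 : (15 : ZMod 5) = 0 := by decide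
  simp only [mul4, map_add, map_sub, map_mul, map_ofNat, h5, h15, zero_mul, add_zero, sub_zero]
  exact h

lemma cond_conj {x : P} (hx : Cond x) : Cond (conj4 x) := by
  refine ⟨by rw [n4_conj, hx.1], ?_⟩
  have h := SS_conj _ _ hx.2
  simp only [conj4, map_neg]
  exact h

lemma cond_one : Cond (one4 : P) := by
  refine ⟨n4_one, ?_⟩
  simp only [one4, map_one, map_zero]
  left; rfl

def GG : Type := {x : P // Cond x}

def mkGG (x : P) (h : Cond x) : GG := ⟨x, h⟩

noncomputable instance : TopologicalSpace GG := instTopologicalSpaceSubtype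

noncomputable instance : Mul GG := ⟨fun x y => ⟨mul4 x.1 y.1, cond_mul x.2 y.2⟩⟩
noncomputable instance : Inv GG := ⟨fun x => ⟨conj4 x.1, cond_conj x.2⟩⟩
noncomputable instance : One GG := ⟨⟨one4, cond_one⟩⟩

noncomputable instance : Group GG :=
  Group.ofLeftAxioms (fun x y z => Subtype.ext (mul4_assoc x.1 y.1 z.1))
    (fun x => Subtype.ext (one_mul4 x.1))
    (fun x => Subtype.ext (by
      show mul4 (conj4 x.1) x.1 = one4
      rw [conj_mul4, x.2.1]; rfl))

lemma val_mul (x y : GG) : (x * y).1 = mul4 x.1 y.1 := rfl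
lemma val_inv (x : GG) : (x⁻¹).1 = conj4 x.1 := rfl
lemma val_one : (1 : GG).1 = one4 := rfl

instance : IsTopologicalGroup GG where
  continuous_mul := by
    have h : Continuous fun q : GG × GG => mul4 q.1.1 q.2.1 := by
      unfold mul4
      have h1 : Continuous fun q : GG × GG => q.1.1 := continuous_subtype_val.comp continuous_fst
      have h2 : Continuous fun q : GG × GG => q.2.1 := continuous_subtype_val.comp continuous_snd
      fun_prop
    exact Continuous.subtype_mk h _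
  continuous_inv := by
    have h : Continuous fun q : GG => conj4 q.1 := by
      unfold conj4
      have h1 : Continuous fun q : GG => q.1 := continuous_subtype_val
      fun_prop
    exact Continuous.subtype_mk h _

lemma toZMod_eq_zero_iff (x : Z5) : PadicInt.toZMod x = 0 ↔ (5 : Z5) ∣ x := by
  rw [← RingHom.mem_ker, PadicInt.ker_toZMod, PadicInt.maximalIdeal_eq_span_p,
    Ideal.mem_span_singleton]
  norm_num

lemma continuous_toZMod : Continuous (PadicInt.toZMod : Z5 → ZMod 5) := by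
  refine continuous_of_continuousAt_zero (PadicInt.toZMod : Z5 →+* ZMod 5) ?_
  rw [ContinuousAt, map_zero]
  refine Filter.Tendsto.mono_right ?_ (pure_le_nhds (0 : ZMod 5))
  rw [Filter.tendsto_pure]
  have : Metric.ball (0 : Z5) 1 ∈ 𝓝 (0 : Z5) := Metric.ball_mem_nhds _ one_pos
  filter_upwards [this] with x hx
  have h1 : x ∈ IsLocalRing.maximalIdeal Z5 := by
    rw [IsLocalRing.mem_maximalIdeal, PadicInt.mem_nonunits]
    simpa using hx
  rw [← PadicInt.ker_toZMod] at h1
  exact h1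

lemma isClosed_cond : IsClosed {x : P | Cond x} := by
  have h1 : IsClosed {x : P | n4 x = 1} := by
    refine isClosed_eq ?_ continuous_const
    unfold n4; fun_prop
  have h2 : IsClosed {x : P | SS (PadicInt.toZMod x.1, PadicInt.toZMod x.2.1)} := by
    have hc : Continuous fun x : P => ((PadicInt.toZMod x.1 : ZMod 5), (PadicInt.toZMod x.2.1 : ZMod 5)) :=
      (continuous_toZMod.comp continuous_fst).prodMk
        (continuous_toZMod.comp (continuous_fst.comp continuous_snd))
    exact (isClosed_discrete {u | SS u}).preimage hc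
  exact h1.inter h2

instance : CompactSpace GG := isCompact_iff_compactSpace.1 isClosed_cond.isCompact
instance : T2Space GG := inferInstanceAs (T2Space {x : P // Cond x})
instance : TotallyDisconnectedSpace GG :=
  inferInstanceAs (TotallyDisconnectedSpace {x : P // Cond x})

lemma two_ne : (2 : Z5) ≠ 0 := by norm_num
lemma six_ne : (6 : Z5) ≠ 0 := by norm_num
lemma ten_ne : (10 : Z5) ≠ 0 := by norm_num

/-- commuting means parallel imaginary parts -/
lemma comm_iff (x y : GG) : x * y = y * x ↔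
    (x.1.2.1 * y.1.2.2.1 = x.1.2.2.1 * y.1.2.1 ∧ x.1.2.1 * y.1.2.2.2 = x.1.2.2.2 * y.1.2.1 ∧
      x.1.2.2.1 * y.1.2.2.2 = x.1.2.2.2 * y.1.2.2.1) := by
  constructor
  · intro h
    have h' : mul4 x.1 y.1 = mul4 y.1 x.1 := congrArg Subtype.val h
    simp only [mul4, Prod.mk.injEq] at h'
    obtain ⟨-, h1, h2, h3⟩ := h'
    refine ⟨?_, ?_, ?_⟩
    · apply mul_left_cancel₀ two_ne
      linear_combination h3
    · apply mul_left_cancel₀ six_ne
      linear_combination -h2
    · apply mul_left_cancel₀ ten_ne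
      linear_combination -h1
  · rintro ⟨h1, h2, h3⟩
    apply Subtype.ext
    show mul4 x.1 y.1 = mul4 y.1 x.1
    simp only [mul4]
    refine Prod.ext ?_ (Prod.ext ?_ (Prod.ext ?_ ?_)) <;> simp only
    · ring
    · linear_combination -10 * h3
    · linear_combination -6 * h2
    · linear_combination 2 * h1

lemma SS_re : ∀ a b : ZMod 5, SS (a, b) → a ≠ 0 ∧ a ≠ -1 := by decide

lemma eq_one_of_im (y : GG) (h1 : y.1.2.1 = 0) (h2 : y.1.2.2.1 = 0) (h3 : y.1.2.2.2 = 0) :
    y = 1 := by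
  have hn := y.2.1
  simp only [n4, h1, h2, h3] at hn
  have h4 : (y.1.1 - 1) * (y.1.1 + 1) = 0 := by linear_combination hn
  rcases mul_eq_zero.1 h4 with h | h
  · apply Subtype.ext
    rw [val_one]
    exact Prod.ext (sub_eq_zero.1 h) (Prod.ext h1 (Prod.ext h2 h3))
  · exfalso
    apply (SS_re _ _ y.2.2).2
    have : y.1.1 = -1 := eq_neg_of_add_eq_zero_left h
    rw [this, map_neg, map_one]

lemma im_ne (y : GG) (hy : y ≠ 1) : y.1.2.1 ≠ 0 ∨ y.1.2.2.1 ≠ 0 ∨ y.1.2.2.2 ≠ 0 := by
  by_contra h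
  push Not at h
  exact hy (eq_one_of_im y h.1 h.2.1 h.2.2)

lemma trans_comm (x y z : GG) (hy : y ≠ 1) (hxy : x * y = y * x) (hyz : y * z = z * y) :
    x * z = z * x := by
  rw [comm_iff] at *
  obtain ⟨a1, a2, a3⟩ := hxy
  obtain ⟨b1, b2, b3⟩ := hyz
  rcases im_ne y hy with h | h | h
  · refine ⟨mul_left_cancel₀ h ?_, mul_left_cancel₀ h ?_, mul_left_cancel₀ h ?_⟩
    · linear_combination x.1.2.1 * b1 + z.1.2.1 * a1
    · linear_combination x.1.2.1 * b2 + z.1.2.1 * a2
    · linear_combination x.1.2.2.1 * b2 - x.1.2.2.2 * b1 + z.1.2.1 * a3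
  · refine ⟨mul_left_cancel₀ h ?_, mul_left_cancel₀ h ?_, mul_left_cancel₀ h ?_⟩
    · linear_combination x.1.2.2.1 * b1 + z.1.2.2.1 * a1
    · linear_combination x.1.2.1 * b3 + x.1.2.2.2 * b1 + z.1.2.2.1 * a2
    · linear_combination x.1.2.2.1 * b3 + z.1.2.2.1 * a3
  · refine ⟨mul_left_cancel₀ h ?_, mul_left_cancel₀ h ?_, mul_left_cancel₀ h ?_⟩
    · linear_combination -x.1.2.1 * b3 + x.1.2.2.1 * b2 + z.1.2.2.2 * a1
    · linear_combination x.1.2.2.2 * b2 + z.1.2.2.2 * a2
    · linear_combination x.1.2.2.2 * b3 + z.1.2.2.2 * a3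

lemma sq_aux : ∀ u v : ZMod 5, u ^ 2 + 3 * v ^ 2 = 0 → u = 0 ∧ v = 0 := by decide

lemma eq_zero_of_dvd (x : Z5) (h : ∀ n : ℕ, (5 : Z5) ^ n ∣ x) : x = 0 := by
  by_contra hx
  have h5 : ¬ IsUnit (5 : Z5) := by
    have := (PadicInt.prime_p (p := 5)).not_isUnit
    simpa using this
  obtain ⟨n, hn⟩ := FiniteMultiplicity.of_not_isUnit h5 hx
  exact hn (h (n + 1))

lemma descent (n : ℕ) : ∀ a b c : Z5, 3 * a ^ 2 = 5 * (b ^ 2 + 3 * c ^ 2) →
    (5 : Z5) ^ n ∣ a ∧ (5 : Z5) ^ n ∣ b ∧ (5 : Z5) ^ n ∣ c := by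
  induction n with
  | zero => intro a b c _; simp
  | succ n ih =>
    intro a b c h
    have h50 : (5 : Z5) ≠ 0 := by norm_num
    have ha : (5 : Z5) ∣ a := by
      rw [← toZMod_eq_zero_iff]
      have := congrArg (PadicInt.toZMod : Z5 →+* ZMod 5) h
      simp only [map_mul, map_pow, map_add, map_ofNat] at this
      have h2 : ∀ u v w : ZMod 5, 3 * u ^ 2 = 5 * (v ^ 2 + 3 * w ^ 2) → u = 0 := by decide
      exact h2 _ _ _ this
    obtain ⟨a', rfl⟩ := ha
    have h' : 15 * a' ^ 2 = b ^ 2 + 3 * c ^ 2 := by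
      apply mul_left_cancel₀ h50
      linear_combination h
    have hbc : PadicInt.toZMod b = 0 ∧ PadicInt.toZMod c = 0 := by
      have := congrArg (PadicInt.toZMod : Z5 →+* ZMod 5) h'
      simp only [map_mul, map_pow, map_add, map_ofNat] at this
      apply sq_aux
      rw [← this]
      have h15 : (15 : ZMod 5) = 0 := by decide
      rw [h15, zero_mul]
    rw [toZMod_eq_zero_iff, toZMod_eq_zero_iff] at hbc
    obtain ⟨⟨b', rfl⟩, ⟨c', rfl⟩⟩ := hbc
    have h'' : 3 * a' ^ 2 = 5 * (b' ^ 2 + 3 * c' ^ 2) := by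
      apply mul_left_cancel₀ h50
      linear_combination h'
    obtain ⟨h1, h2, h3⟩ := ih a' b' c' h''
    refine ⟨?_, ?_, ?_⟩ <;> rw [pow_succ'] <;> exact mul_dvd_mul_left _ (by assumption)

lemma aniso (a b c : Z5) (h : 3 * a ^ 2 = 5 * (b ^ 2 + 3 * c ^ 2)) : a = 0 ∧ b = 0 ∧ c = 0 :=
  ⟨eq_zero_of_dvd a fun n => (descent n a b c h).1,
    eq_zero_of_dvd b fun n => (descent n a b c h).2.1,
    eq_zero_of_dvd c fun n => (descent n a b c h).2.2⟩

lemma conj_comm (g y : GG) (hy : y ≠ 1)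
    (h : (g * y * g⁻¹) * y = y * (g * y * g⁻¹)) : g * y = y * g := by
  set x := g * y * g⁻¹ with hx
  have hxg : x * g = g * y := by rw [hx]; group
  have hxv : x.1 = mul4 (mul4 g.1 y.1) (conj4 g.1) := by rw [hx]; rfl
  have hre : x.1.1 = y.1.1 := by
    have h1 : (mul4 (mul4 g.1 y.1) (conj4 g.1)).1 = n4 g.1 * y.1.1 := by
      simp only [mul4, conj4, n4]; ring
    rw [hxv, h1, g.2.1, one_mul]
  have hcm := (comm_iff x y).1 h
  have hnx := x.2.1
  have hny := y.2.1
  have hxv2 : mul4 x.1 g.1 = mul4 g.1 y.1 := congrArg Subtype.val hxg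
  obtain ⟨c1, c2, c3⟩ := hcm
  -- abbreviations
  obtain ⟨⟨x0, x1, x2, x3⟩, hxc⟩ := x
  obtain ⟨⟨y0, y1, y2, y3⟩, hyc⟩ := y
  obtain ⟨⟨g0, g1, g2, g3⟩, hgc⟩ := g
  simp only at hre c1 c2 c3 hnx hny hxv2
  subst hre
  simp only [n4] at hnx hny
  have hprod : n4 ((0, x1 - y1, x2 - y2, x3 - y3) : P) * n4 ((0, x1 + y1, x2 + y2, x3 + y3) : P) = 0 := by
    rw [← n4_mul]
    have h0 : mul4 ((0, x1 - y1, x2 - y2, x3 - y3) : P) ((0, x1 + y1, x2 + y2, x3 + y3) : P)
        = (0, 0, 0, 0) := by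
      simp only [mul4]
      refine Prod.ext ?_ (Prod.ext ?_ (Prod.ext ?_ ?_)) <;> simp only
      · linear_combination hny - hnx
      · linear_combination -10 * c3
      · linear_combination -6 * c2
      · linear_combination 2 * c1
    rw [h0]
    simp [n4]
  rcases mul_eq_zero.1 hprod with h0 | h0
  · -- x = y
    simp only [n4] at h0
    obtain ⟨e1, e2, e3⟩ := aniso (x1 - y1) (x2 - y2) (x3 - y3) (by linear_combination h0)
    have e1' : x1 = y1 := sub_eq_zero.1 e1
    have e2' : x2 = y2 := sub_eq_zero.1 e2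
    have e3' : x3 = y3 := sub_eq_zero.1 e3
    subst e1' e2' e3'
    exact hxg.symm
  · -- x = conj y
    exfalso
    simp only [n4] at h0
    obtain ⟨e1, e2, e3⟩ := aniso (x1 + y1) (x2 + y2) (x3 + y3) (by linear_combination h0)
    have e1' : x1 = -y1 := eq_neg_of_add_eq_zero_left e1
    have e2' : x2 = -y2 := eq_neg_of_add_eq_zero_left e2
    have e3' : x3 = -y3 := eq_neg_of_add_eq_zero_left e3
    simp only [mul4, Prod.mk.injEq] at hxv2
    obtain ⟨-, m1, m2, m3⟩ := hxv2
    rw [e1', e2', e3'] at m1 m2 m3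
    have n1 : g0 * y1 = 0 := by
      apply mul_left_cancel₀ two_ne
      linear_combination -m1
    have n2 : g0 * y2 = 0 := by
      apply mul_left_cancel₀ two_ne
      linear_combination -m2
    have n3 : g0 * y3 = 0 := by
      apply mul_left_cancel₀ two_ne
      linear_combination -m3
    have hg0 : g0 = 0 := by
      rcases im_ne _ hy with h' | h' | h'
      · exact (mul_eq_zero.1 n1).resolve_right h'
      · exact (mul_eq_zero.1 n2).resolve_right h'
      · exact (mul_eq_zero.1 n3).resolve_right h'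
    apply (SS_re _ _ hgc.2).1
    simp only [hg0, map_zero]

lemma csa_GG : IsCSA GG := csa_of trans_comm conj_comm

/-- reduction modulo `5` -/
noncomputable def red (x : GG) : ZMod 5 × ZMod 5 × ZMod 5 × ZMod 5 :=
  map4 (PadicInt.toZMod : Z5 →+* ZMod 5) x.1

lemma red_mul (x y : GG) : red (x * y) = mul4 (red x) (red y) := map4_mul _ _ _

def N1 : Subgroup GG where
  carrier := {x | red x = red 1}
  one_mem' := rfl
  mul_mem' := by
    intro x y hx hy
    have hx' : red x = red 1 := hx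
    have hy' : red y = red 1 := hy
    show red (x * y) = red 1
    rw [red_mul, hx', hy', ← red_mul, one_mul]
  inv_mem' := by
    intro x hx
    have hx' : red x = red 1 := hx
    show red (x⁻¹) = red 1
    have : red (x⁻¹ * 1) = red (x⁻¹ * x) := by rw [red_mul, ← hx', ← red_mul]
    rw [mul_one, inv_mul_cancel] at this
    exact this

lemma mem_N1 (x : GG) : x ∈ N1 ↔ red x = red 1 := Iff.rfl

instance : N1.Normal where
  conj_mem := by
    intro x hx g
    rw [mem_N1] at *
    rw [red_mul, red_mul, hx, ← red_mul, ← red_mul, mul_one, mul_inv_cancel]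

lemma isOpen_N1 : IsOpen (N1 : Set GG) := by
  have hc : Continuous red := by
    unfold red map4
    have h1 : Continuous fun q : GG => q.1 := continuous_subtype_val
    refine (continuous_toZMod.comp (continuous_fst.comp h1)).prodMk ?_
    refine (continuous_toZMod.comp (continuous_fst.comp (continuous_snd.comp h1))).prodMk ?_
    refine (continuous_toZMod.comp (continuous_fst.comp
      (continuous_snd.comp (continuous_snd.comp h1)))).prodMk ?_
    exact continuous_toZMod.comp (continuous_snd.comp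
      (continuous_snd.comp (continuous_snd.comp h1)))
  exact (isOpen_discrete {red 1}).preimage hc

lemma exists_half : ∃ h : Z5, 2 * h = 1 := by
  have h2 : IsUnit (2 : Z5) := by
    by_contra hn
    have h1 : (2 : Z5) ∈ IsLocalRing.maximalIdeal Z5 := (IsLocalRing.mem_maximalIdeal _).2 hn
    rw [← PadicInt.ker_toZMod, RingHom.mem_ker, map_ofNat] at h1
    exact absurd h1 (by decide)
  obtain ⟨u, hu⟩ := h2
  exact ⟨(u⁻¹ : Z5ˣ), by rw [← hu]; simp⟩

/-- an element of order three outside `N1` -/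
lemma exists_omega : ∃ w : GG, w ^ 3 = 1 ∧ w ∉ N1 ∧ w.1.2.1 ≠ 0 ∧ w.1.2.2.1 = 0 := by
  obtain ⟨h, hh⟩ := exists_half
  have hz : PadicInt.toZMod h = 3 := by
    have := congrArg (PadicInt.toZMod : Z5 →+* ZMod 5) hh
    simp only [map_mul, map_ofNat, map_one] at this
    have h2 : ∀ z : ZMod 5, 2 * z = 1 → z = 3 := by decide
    exact h2 _ this
  have hc : Cond ((-h, h, 0, 0) : P) := by
    refine ⟨?_, ?_⟩
    · simp only [n4]; linear_combination (2 * h + 1) * hh
    · simp only [map_neg, hz]; right; left; decide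
  refine ⟨mkGG (-h, h, 0, 0) hc, ?_, ?_, ?_, rfl⟩
  · apply Subtype.ext
    rw [pow_succ, pow_two]
    show mul4 (mul4 ((-h, h, 0, 0) : P) (-h, h, 0, 0)) (-h, h, 0, 0) = one4
    simp only [mul4, one4]
    refine Prod.ext ?_ (Prod.ext ?_ (Prod.ext ?_ ?_)) <;> simp only
    · linear_combination (4 * h ^ 2 + 2 * h + 1) * hh
    · ring
    · ring
    · ring
  · rw [mem_N1]
    intro hr
    have h1 : (red (mkGG (-h, h, 0, 0) hc)).2.1 = (red 1).2.1 := by rw [hr]
    have h2 : (PadicInt.toZMod h : ZMod 5) = PadicInt.toZMod (0 : Z5) := h1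
    rw [hz, map_zero] at h2
    exact absurd h2 (by decide)
  · show h ≠ 0
    rintro rfl
    simp at hh

/-- an element whose fifth power is in `N1` -/
lemma exists_tau : ∃ t : GG, t ^ 5 ∈ N1 ∧ t ∉ N1 ∧ t.1.2.2.1 ≠ 0 := by
  have hc : Cond ((-9, 0, 4, 0) : P) := by
    refine ⟨?_, ?_⟩
    · simp only [n4]; norm_num
    · simp only [map_neg, map_ofNat, map_zero]; left; decide
  have hr : red (mkGG (-9, 0, 4, 0) hc) = (1, 0, 4, 0) := by
    simp only [red, mkGG, map4, map_neg, map_ofNat, map_zero]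
    decide
  have hr1 : red 1 = (1, 0, 0, 0) := by
    simp only [red, map4, val_one, one4, map_one, map_zero]
  refine ⟨mkGG (-9, 0, 4, 0) hc, ?_, ?_, ?_⟩
  · rw [mem_N1, pow_succ, pow_succ, pow_succ, pow_two, red_mul, red_mul, red_mul, red_mul, hr, hr1]
    decide
  · rw [mem_N1, hr, hr1]
    decide
  · show (4 : Z5) ≠ 0
    norm_num

lemma not_proP (p : ℕ) (hp : p.Prime) : ¬ IsProP p GG := by
  intro h
  obtain ⟨k, hk⟩ := h N1 inferInstance isOpen_N1
  have hdvd : ∀ (x : GG) (q : ℕ), q.Prime → x ^ q ∈ N1 → x ∉ N1 → q = p := by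
    intro x q hq h1 h2
    have : Fact q.Prime := ⟨hq⟩
    have ho : orderOf (x : GG ⧸ N1) = q := by
      apply orderOf_eq_prime
      · have : ((x ^ q : GG) : GG ⧸ N1) = 1 := (QuotientGroup.eq_one_iff _).2 h1
        exact this
      · intro h'
        exact h2 ((QuotientGroup.eq_one_iff _).1 h')
    have hd : q ∣ N1.index := by
      rw [← ho, Subgroup.index_eq_card]
      exact orderOf_dvd_natCard _
    rw [hk] at hd
    exact (Nat.prime_dvd_prime_iff_eq hq hp).1 (hq.dvd_of_dvd_pow hd)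
  obtain ⟨w, hw1, hw2, -, -⟩ := exists_omega
  obtain ⟨t, ht1, ht2, -⟩ := exists_tau
  have h3 := hdvd w 3 Nat.prime_three (by rw [hw1]; exact one_mem _) hw2
  have h5 := hdvd t 5 Nat.prime_five ht1 ht2
  omega

lemma not_abelian : ∃ a b : GG, a * b ≠ b * a := by
  obtain ⟨w, -, -, hw1, hw2⟩ := exists_omega
  obtain ⟨t, -, -, ht⟩ := exists_tau
  refine ⟨w, t, ?_⟩
  intro h
  have := ((comm_iff w t).1 h).1
  rw [hw2, zero_mul] at this
  rcases mul_eq_zero.1 this with h' | h'
  · exact hw1 h'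
  · exact ht h'

/-- There is a non-abelian profinite CSA-group which is not pro-`p` for any prime `p`. -/
theorem result :
    ∃ (G : Type) (_ : Group G) (_ : TopologicalSpace G),
      IsTopologicalGroup G ∧ CompactSpace G ∧ T2Space G ∧ TotallyDisconnectedSpace G ∧
        (∃ a b : G, a * b ≠ b * a) ∧ IsCSA G ∧ ∀ p : ℕ, p.Prime → ¬ IsProP p G :=
  ⟨GG, inferInstance, inferInstance, inferInstance, inferInstance, inferInstance, inferInstance,
    not_abelian, csa_GG, not_proP⟩

end Pool.Agent.Results.MP_b9311c_al.CSANotProP
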